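import Pool.Agent.PSV.StmtsS

/-! PSV, row MPC: several parameters (helper87). -/

set_option autoImplicit false

namespace Pool.Agent.PSV.H87

open Matrix Polynomial NumberField

theorem mpc : MpcStmt := by
  intro k _ _ M e C δ hδ
  refine ⟨⌈2 * (e : ℝ) / δ⌉₊ + 1, 3 ^ M * C * (M + 2) ^ e, ?_⟩
  intro S hS X Y hY hXY
  have hX : 1 ≤ X := le_trans (Nat.one_le_pow _ _ hY) hXY
  have hX0 : (0 : ℝ) < (X : ℝ) := by exact_mod_cast hX
  have hX1 : (1 : ℝ) ≤ (X : ℝ) := by exact_mod_cast hX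
  have hY1 : (1 : ℝ) ≤ (Y : ℝ) := by exact_mod_cast hY
  set m : ℝ := (Module.finrank ℚ k : ℝ) with hm
  set q : ℕ := ⌈2 * (e : ℝ) / δ⌉₊ + 1 with hq
  have hq0 : (0 : ℝ) < (q : ℝ) := by rw [hq]; push_cast; positivity
  have hrhs : (0 : ℝ) ≤ ((3 ^ M * C * (M + 2) ^ e : ℕ) : ℝ) * (X : ℝ) ^ (m - δ / 2) * (Y : ℝ) ^ M := by
    positivity
  by_cases hfin : Finite {p : 𝓞 k × (Fin M → ℤ) // p.1 ∈ S p.2 ∧ house (p.1 : k) ≤ X ∧
        ∀ i, |p.2 i| ≤ (Y : ℤ)}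
  · let P : Finset (Fin M → ℤ) := Fintype.piFinset fun _ => Finset.Icc (-(Y : ℤ)) (Y : ℤ)
    have hP : ∀ g : Fin M → ℤ, g ∈ P ↔ ∀ i, |g i| ≤ (Y : ℤ) := by
      intro g
      simp only [P, Fintype.mem_piFinset, Finset.mem_Icc, abs_le]
    have hPc : P.card = (2 * Y + 1) ^ M := by
      simp only [P, Fintype.card_piFinset, Int.card_Icc, Finset.prod_const, Finset.card_univ,
        Fintype.card_fin]
      congr 1
      omega
    let E : {p : 𝓞 k × (Fin M → ℤ) // p.1 ∈ S p.2 ∧ house (p.1 : k) ≤ X ∧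
        ∀ i, |p.2 i| ≤ (Y : ℤ)} ≃ (Σ g : P, {x : 𝓞 k // x ∈ S g.1 ∧ house (x : k) ≤ X}) :=
      { toFun := fun p => ⟨⟨p.1.2, (hP _).2 p.2.2.2⟩, ⟨p.1.1, p.2.1, p.2.2.1⟩⟩
        invFun := fun s => ⟨(s.2.1, s.1.1), s.2.2.1, s.2.2.2, (hP _).1 s.1.2⟩
        left_inv := fun p => rfl
        right_inv := fun s => rfl }
    have : Finite (Σ g : P, {x : 𝓞 k // x ∈ S g.1 ∧ house (x : k) ≤ X}) := Finite.of_equiv _ E
    have hfib : ∀ g : P, Finite {x : 𝓞 k // x ∈ S g.1 ∧ house (x : k) ≤ X} := by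
      intro g
      refine Finite.of_injective
        (fun x => (⟨g, x⟩ : Σ g : P, {x : 𝓞 k // x ∈ S g.1 ∧ house (x : k) ≤ X})) ?_
      intro x y hxy
      simpa using hxy
    have hcard : (Nat.card {p : 𝓞 k × (Fin M → ℤ) // p.1 ∈ S p.2 ∧ house (p.1 : k) ≤ X ∧
        ∀ i, |p.2 i| ≤ (Y : ℤ)} : ℝ) =
        ∑ g : P, (Nat.card {x : 𝓞 k // x ∈ S g.1 ∧ house (x : k) ≤ X} : ℝ) := by
      rw [Nat.card_congr E, Nat.card_sigma]
      push_cast
      rfl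
    rw [hcard]
    have hb : ∀ g : P, (Nat.card {x : 𝓞 k // x ∈ S g.1 ∧ house (x : k) ≤ X} : ℝ) ≤
        C * (((M : ℝ) + 2) * Y) ^ e * (X : ℝ) ^ (m - δ) := by
      intro g
      refine (hS g.1 X hX).trans ?_
      have h1 : ((2 + ∑ i, (g.1 i).natAbs : ℕ) : ℝ) ≤ ((M : ℝ) + 2) * Y := by
        have h2 : (2 + ∑ i, (g.1 i).natAbs : ℕ) ≤ (M + 2) * Y := by
          have h3 : ∑ i, (g.1 i).natAbs ≤ ∑ _i : Fin M, Y := by
            refine Finset.sum_le_sum fun i _ => ?_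
            have h7 := (hP g.1).1 g.2 i
            rw [Int.abs_eq_natAbs] at h7
            exact_mod_cast h7
          simp only [Finset.sum_const, Finset.card_univ, Fintype.card_fin, smul_eq_mul] at h3
          nlinarith
        calc ((2 + ∑ i, (g.1 i).natAbs : ℕ) : ℝ) ≤ (((M + 2) * Y : ℕ) : ℝ) := by exact_mod_cast h2
          _ = ((M : ℝ) + 2) * Y := by push_cast; ring
      have h4 : ((2 + ∑ i, (g.1 i).natAbs : ℕ) : ℝ) ^ e ≤ (((M : ℝ) + 2) * Y) ^ e :=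
        pow_le_pow_left₀ (by positivity) h1 e
      have h5 : (0 : ℝ) ≤ (X : ℝ) ^ (m - δ) := by positivity
      have h6 : (0 : ℝ) ≤ (C : ℝ) := by positivity
      exact mul_le_mul_of_nonneg_right (mul_le_mul_of_nonneg_left h4 h6) h5
    refine (Finset.sum_le_sum fun g _ => hb g).trans ?_
    rw [Finset.sum_const, Finset.card_univ, Fintype.card_coe, hPc, nsmul_eq_mul]
    have hYe : (Y : ℝ) ^ e ≤ (X : ℝ) ^ (δ / 2) := by
      have h1 : ((Y : ℝ) ^ (q : ℝ)) ≤ (X : ℝ) := by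
        rw [Real.rpow_natCast]; exact_mod_cast hXY
      have h2 : (Y : ℝ) ^ e = ((Y : ℝ) ^ (q : ℝ)) ^ ((e : ℝ) / q) := by
        rw [← Real.rpow_mul (by positivity), ← Real.rpow_natCast]
        congr 1
        field_simp
      rw [h2]
      have h3 : ((Y : ℝ) ^ (q : ℝ)) ^ ((e : ℝ) / q) ≤ (X : ℝ) ^ ((e : ℝ) / q) :=
        Real.rpow_le_rpow (by positivity) h1 (by positivity)
      refine h3.trans (Real.rpow_le_rpow_of_exponent_le hX1 ?_)
      rw [div_le_iff₀ hq0]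
      have h4 : 2 * (e : ℝ) / δ ≤ (q : ℝ) := by
        rw [hq]; push_cast
        exact (Nat.le_ceil _).trans (by linarith)
      rw [div_le_iff₀ hδ] at h4
      linarith
    have hY3 : (((2 * Y + 1) ^ M : ℕ) : ℝ) ≤ 3 ^ M * (Y : ℝ) ^ M := by
      rw [← mul_pow]
      push_cast
      exact pow_le_pow_left₀ (by positivity) (by linarith) M
    have hsplit : (X : ℝ) ^ (m - δ / 2) = (X : ℝ) ^ (δ / 2) * (X : ℝ) ^ (m - δ) := by
      rw [← Real.rpow_add hX0]; congr 1; ring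
    rw [hsplit, mul_pow]
    push_cast
    have hA : (0 : ℝ) ≤ (X : ℝ) ^ (m - δ) := by positivity
    calc (((2 : ℝ) * Y + 1) ^ M) * (C * ((((M : ℝ) + 2) ^ e) * (Y : ℝ) ^ e) * (X : ℝ) ^ (m - δ))
        ≤ (3 ^ M * (Y : ℝ) ^ M) *
          (C * ((((M : ℝ) + 2) ^ e) * (X : ℝ) ^ (δ / 2)) * (X : ℝ) ^ (m - δ)) := by
          have h1 : ((2 : ℝ) * Y + 1) ^ M ≤ 3 ^ M * (Y : ℝ) ^ M := by
            have := hY3; push_cast at this; exact this
          gcongr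
      _ = 3 ^ M * C * ((M : ℝ) + 2) ^ e * ((X : ℝ) ^ (δ / 2) * (X : ℝ) ^ (m - δ)) *
          (Y : ℝ) ^ M := by ring
  · have : Infinite {p : 𝓞 k × (Fin M → ℤ) // p.1 ∈ S p.2 ∧ house (p.1 : k) ≤ X ∧
        ∀ i, |p.2 i| ≤ (Y : ℤ)} := not_finite_iff_infinite.1 hfin
    rw [Nat.card_eq_zero_of_infinite]
    simpa using hrhs

end Pool.Agent.PSV.H87
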